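import Mathlib
import Pool.Agent.Q72.BohrH.Bound
import Pool.Agent.Q72.BohrH.Num

set_option autoImplicit false

/-!
# MP_8fe0b8_an : the Bohr radius of harmonic mappings with bounded dilatation ratio

The conjectured radius `r_K = (1/4) √(7/2 - 1/(2K²) + 5/K)` is the sharp Bohr radius of the class
`F_K`, for every `K > 1`.
-/

namespace Pool.Agent.Results.MP_8fe0b8_an.BohrRadiusHarmonic
open Filter Topology Metric Finset
open Pool.Agent.H563Dom (IsPS)
open Pool.Agent.Q72.BohrH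

/-- `f = h + conj g` belongs to `F_K`, with `h(z) = ∑_{n ≥ 1} a_n z^n` bounded on the unit disc,
`g(z) = ∑_{n ≥ 1} b_n z^n` and `|g'| ≤ (K - 1)/(K + 1) |h'|` on the unit disc. -/
structure InF (K : ℝ) (a b : ℕ → ℂ) (h g : ℂ → ℂ) : Prop where
  hsum : ∀ z : ℂ, ‖z‖ < 1 → HasSum (fun n : ℕ => a (n + 1) * z ^ (n + 1)) (h z)
  gsum : ∀ z : ℂ, ‖z‖ < 1 → HasSum (fun n : ℕ => b (n + 1) * z ^ (n + 1)) (g z)
  bdd : ∃ M : ℝ, ∀ z : ℂ, ‖z‖ < 1 → ‖h z‖ ≤ M
  dil : ∀ z : ℂ, ‖z‖ < 1 → ‖deriv g z‖ ≤ (K - 1) / (K + 1) * ‖deriv h z‖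

/-- The supremum norm of `h` on the unit disc. -/
noncomputable def supNorm (h : ℂ → ℂ) : ℝ := sSup ((fun z => ‖h z‖) '' ball (0 : ℂ) 1)

/-- `∑_{n ≥ 1} (|a_n| + |b_n|) r^n ≤ ‖h‖_∞`. -/
def BohrInequality (a b : ℕ → ℂ) (h : ℂ → ℂ) (r : ℝ) : Prop :=
  Summable (fun n : ℕ => (‖a (n + 1)‖ + ‖b (n + 1)‖) * r ^ (n + 1)) ∧
    ∑' n : ℕ, (‖a (n + 1)‖ + ‖b (n + 1)‖) * r ^ (n + 1) ≤ supNorm h

/-- The conjectured radius. -/
noncomputable def rK (K : ℝ) : ℝ := 1 / 4 * Real.sqrt (7 / 2 - 1 / (2 * K ^ 2) + 5 / K)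

lemma rK_pos {K : ℝ} (hK : 1 < K) : 0 < rK K := by
  unfold rK
  have h1 : 0 < 7 / 2 - 1 / (2 * K ^ 2) + 5 / K := by
    have : 1 / (2 * K ^ 2) ≤ 1 := by
      rw [div_le_one (by positivity)]; nlinarith
    have : 0 < 5 / K := by positivity
    linarith
  positivity

lemma rK_sq {K : ℝ} (hK : 1 < K) : 32 * rK K ^ 2 = 7 + 10 * (1 / K) - (1 / K) ^ 2 := by
  unfold rK
  have h1 : 0 ≤ 7 / 2 - 1 / (2 * K ^ 2) + 5 / K := by
    have : 1 / (2 * K ^ 2) ≤ 1 := by
      rw [div_le_one (by positivity)]; nlinarith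
    have : 0 < 5 / K := by positivity
    linarith
  rw [mul_pow, Real.sq_sqrt h1]
  field_simp
  ring

lemma shiftPS {a : ℕ → ℂ} {h : ℂ → ℂ}
    (hs : ∀ z : ℂ, ‖z‖ < 1 → HasSum (fun n : ℕ => a (n + 1) * z ^ (n + 1)) (h z)) :
    IsPS (fun n => if n = 0 then 0 else a n) h := by
  intro z hz
  have h1 := hs z (by simpa using hz)
  have h2 := (hasSum_nat_add_iff (f := fun n : ℕ => (if n = 0 then 0 else a n) * z ^ n) 1).1
    (by simpa using h1)
  simpa using h2

lemma quotPS {a : ℕ → ℂ} {h : ℂ → ℂ}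
    (hs : ∀ z : ℂ, ‖z‖ < 1 → HasSum (fun n : ℕ => a (n + 1) * z ^ (n + 1)) (h z)) :
    IsPS (fun n => a (n + 1)) (fun z => ∑' n, a (n + 1) * z ^ n) ∧
      ∀ z : ℂ, ‖z‖ < 1 → z * ∑' n, a (n + 1) * z ^ n = h z := by
  have hsn : ∀ ρ : ℝ, 0 ≤ ρ → ρ < 1 → Summable (fun n => ‖a (n + 1)‖ * ρ ^ n) := by
    intro ρ h0 h1
    obtain ⟨ρ', h2, h3⟩ := exists_between h1
    have h4 := (shiftPS hs).summable_norm (h0.trans h2.le) h3
    have h5 := (summable_nat_add_iff 1).2 h4
    have h6 : 0 < ρ' := h0.trans_lt h2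
    have h7 := h5.mul_left (ρ'⁻¹)
    refine Summable.of_nonneg_of_le (fun n => by positivity) (fun n => ?_) h7
    simp only [Nat.add_eq_zero_iff, one_ne_zero, and_false, if_false]
    rw [pow_succ]
    have : ρ ^ n ≤ ρ' ^ n := by gcongr
    calc ‖a (n + 1)‖ * ρ ^ n ≤ ‖a (n + 1)‖ * ρ' ^ n := by gcongr
      _ = ρ'⁻¹ * (‖a (n + 1)‖ * (ρ' ^ n * ρ')) := by field_simp
  have hps := Pool.Agent.H563Dom.isPS_tsum hsn
  refine ⟨hps, fun z hz => ?_⟩
  have h1 := (hps z (by simpa using hz)).mul_left z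
  have h2 := hs z hz
  refine h1.unique (h2.congr_fun fun n => ?_)
  rw [pow_succ]; ring

lemma supNorm_bound {h : ℂ → ℂ} {M : ℝ} (hM : ∀ z : ℂ, ‖z‖ < 1 → ‖h z‖ ≤ M) {z : ℂ}
    (hz : ‖z‖ < 1) : ‖h z‖ ≤ supNorm h := by
  apply le_csSup
  · refine ⟨M, ?_⟩
    rintro _ ⟨w, hw, rfl⟩
    exact hM w (by simpa using hw)
  · exact ⟨z, by simpa using hz, rfl⟩

/-- The positive half. -/
lemma positive {K : ℝ} (hK : 1 < K) {a b : ℕ → ℂ} {h g : ℂ → ℂ} (hF : InF K a b h g)
    {r : ℝ} (hr0 : 0 ≤ r) (hr : r ≤ rK K) : BohrInequality a b h r := by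
  obtain ⟨M', hM'⟩ := hF.bdd
  set M := supNorm h with hMdef
  have hM : ∀ z : ℂ, ‖z‖ < 1 → ‖h z‖ ≤ M := fun z hz => supNorm_bound hM' hz
  have hM0 : 0 ≤ M := (norm_nonneg _).trans (hM 0 (by simp))
  set k := (K - 1) / (K + 1) with hk
  have hk0 : 0 ≤ k := by rw [hk]; apply div_nonneg <;> linarith
  have hhPS := shiftPS hF.hsum
  have hgPS := shiftPS hF.gsum
  have hdh := IsPS_deriv hhPS
  have hdg := IsPS_deriv hgPS
  simp only [Nat.add_eq_zero_iff, one_ne_zero, and_false, if_false] at hdh hdg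
  have hmaj : ∀ N, ∑ n ∈ range N, (((n : ℝ) + 1) * ‖b (n + 1)‖) ^ 2 ≤
      k ^ 2 * ∑ n ∈ range N, (((n : ℝ) + 1) * ‖a (n + 1)‖) ^ 2 := by
    intro N
    have h1 := major hdh hdg hk0 (fun z hz => hF.dil z (by simpa using hz)) N
    have e : ∀ (x : ℂ) (n : ℕ), ‖((n : ℂ) + 1) * x‖ = ((n : ℝ) + 1) * ‖x‖ := by
      intro x n
      rw [norm_mul]
      congr 1
      have : ((n : ℂ) + 1) = ((n + 1 : ℕ) : ℂ) := by push_cast; rfl
      rw [this, Complex.norm_natCast]; push_cast; rfl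
    simpa only [e] using h1
  obtain ⟨hΦ, hΦz⟩ := quotPS hF.hsum
  set Φ : ℂ → ℂ := fun z => ∑' n, a (n + 1) * z ^ n with hΦdef
  have hΦb : ∀ z ∈ ball (0 : ℂ) 1, ‖Φ z‖ ≤ M := by
    have hne : ∀ z ∈ ball (0 : ℂ) 1, z ≠ 0 → ‖Φ z‖ ≤ M := by
      intro z hz hz0
      have h0 : h 0 = 0 := by
        have := hΦz 0 (by simp)
        rw [← this]; simp
      have h1 := Complex.dist_le_div_mul_dist_of_mapsTo_ball (f := h) (c := 0) (R₁ := 1) (R₂ := M)
        hhPS.differentiableOn (by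
          intro w hw
          rw [h0, mem_closedBall_zero_iff]
          exact hM w (by simpa using hw)) hz
      rw [h0, dist_zero_right, dist_zero_right, div_one] at h1
      rw [← hΦz z (by simpa using hz), norm_mul, mul_comm] at h1
      exact le_of_mul_le_mul_right h1 (norm_pos_iff.2 hz0)
    intro z hz
    by_cases hz0 : z = 0
    · subst hz0
      have hc : ContinuousAt Φ 0 :=
        (hΦ.differentiableOn.differentiableAt (isOpen_ball.mem_nhds hz)).continuousAt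
      refine le_of_tendsto (hc.norm.tendsto.mono_left nhdsWithin_le_nhds :
        Tendsto (fun w => ‖Φ w‖) (𝓝[≠] 0) _) ?_
      have h1 : ∀ᶠ w in 𝓝[≠] (0 : ℂ), w ∈ ball (0 : ℂ) 1 :=
        nhdsWithin_le_nhds (isOpen_ball.mem_nhds hz)
      filter_upwards [h1, self_mem_nhdsWithin] with w hw hw0
      exact hne w hw hw0
    · exact hne z hz hz0
  -- the bound for partial sums at r_K
  have hrK := rK_pos hK
  have key : ∀ N, ∑ n ∈ range N, (‖a (n + 1)‖ + ‖b (n + 1)‖) * rK K ^ (n + 1) ≤ M := by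
    rcases hM0.eq_or_lt with hM00 | hMpos
    · -- M = 0
      have ha0 : (fun n => a (n + 1)) = fun _ => 0 := by
        refine hΦ.unique ?_
        intro z hz
        have := hΦb z hz
        rw [← hM00] at this
        have h2 : Φ z = 0 := by simpa using this
        rw [h2]
        simp only [zero_mul]
        exact hasSum_zero
      have ha1 : ∀ n, a (n + 1) = 0 := fun n => congrFun ha0 n
      have hb1 : ∀ n, b (n + 1) = 0 := by
        intro n
        have h1 := hmaj (n + 1)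
        simp only [ha1, norm_zero, mul_zero, ne_eq, OfNat.ofNat_ne_zero, not_false_eq_true,
          zero_pow, Finset.sum_const_zero] at h1
        have h2 : (((n : ℝ) + 1) * ‖b (n + 1)‖) ^ 2 ≤
            ∑ n ∈ range (n + 1), (((n : ℝ) + 1) * ‖b (n + 1)‖) ^ 2 :=
          Finset.single_le_sum (f := fun n : ℕ => (((n : ℝ) + 1) * ‖b (n + 1)‖) ^ 2)
            (fun i _ => by positivity) (Finset.self_mem_range_succ n)
        have h3 : (((n : ℝ) + 1) * ‖b (n + 1)‖) ^ 2 = 0 := le_antisymm (h2.trans h1) (by positivity)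
        have h4 : ((n : ℝ) + 1) * ‖b (n + 1)‖ = 0 := by simpa using h3
        have h5 : ((n : ℝ) + 1) ≠ 0 := by positivity
        simpa using (mul_eq_zero.1 h4).resolve_left h5
      intro N
      simp [ha1, hb1, ← hM00]
    · -- M > 0
      set α : ℕ → ℝ := fun n => ‖a (n + 1)‖ / M with hα
      set β : ℕ → ℝ := fun n => ‖b (n + 1)‖ / M with hβ
      have hΨ : IsPS (fun n => ((M⁻¹ : ℝ) : ℂ) * a (n + 1)) (fun z => ((M⁻¹ : ℝ) : ℂ) * Φ z) :=
        IsPS_smul _ hΦ
      have hΨn : ∀ n, ‖((M⁻¹ : ℝ) : ℂ) * a (n + 1)‖ = α n := by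
        intro n
        rw [norm_mul, Complex.norm_real, Real.norm_of_nonneg (by positivity), hα]
        simp only
        rw [div_eq_inv_mul]
      have hΨb : ∀ z ∈ ball (0 : ℂ) 1, ‖((M⁻¹ : ℝ) : ℂ) * Φ z‖ ≤ 1 := by
        intro z hz
        rw [norm_mul, Complex.norm_real, Real.norm_of_nonneg (by positivity),
          inv_mul_le_iff₀ hMpos, mul_one]
        exact hΦb z hz
      have hα1 : α 0 ≤ 1 := by
        rw [hα]
        simp only
        rw [div_le_one hMpos]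
        have h1 := hΦb 0 (by simp)
        have h2 : Φ 0 = a (0 + 1) := by
          have h3 := hΦ 0 (by simp)
          have h4 := hasSum_single (f := fun n : ℕ => a (n + 1) * (0 : ℂ) ^ n) 0 (by
            intro n hn; simp [hn])
          simpa using h3.unique h4
        rw [h2] at h1
        exact h1
      obtain ⟨l, μ, q, hl, hμ, hq, hq1, hrq, hlμ, hcq, hP⟩ :=
        weights (κ := 1 / K) (r := rK K) (c := α 0) (by positivity)
          (by rw [div_lt_one (by linarith)]; exact hK) hrK (rK_sq hK) (by positivity) hα1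
      have hric : ∀ N, (1 - (α 0) ^ 2 * q) * ∑ n ∈ range N, (α (n + 1)) ^ 2 * q ^ (n + 1) ≤
          q * (1 - (α 0) ^ 2) ^ 2 := by
        intro N
        have := ricci hΨ hΨb hq.le hq1 N
        simpa only [hΨn] using this
      have hmaj1 : ∀ N, ∑ n ∈ range N, (((n : ℝ) + 1) * β n) ^ 2 ≤
          k ^ 2 * ∑ n ∈ range N, (((n : ℝ) + 1) * α n) ^ 2 := by
        intro N
        have h1 := hmaj N
        have e1 : ∀ n : ℕ, (((n : ℝ) + 1) * β n) ^ 2 =
            (((n : ℝ) + 1) * ‖b (n + 1)‖) ^ 2 * (1 / M ^ 2) := by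
          intro n; rw [hβ]; field_simp
        have e2 : ∀ n : ℕ, (((n : ℝ) + 1) * α n) ^ 2 =
            (((n : ℝ) + 1) * ‖a (n + 1)‖) ^ 2 * (1 / M ^ 2) := by
          intro n; rw [hα]; field_simp
        simp only [e1, e2]
        rw [← Finset.sum_mul, ← Finset.sum_mul, ← mul_assoc]
        gcongr
      have hmaj2 : ∀ N, ∑ n ∈ range N, (((n : ℝ) + 1) * α n) ^ 2 ≤
          (1 : ℝ) ^ 2 * ∑ n ∈ range N, (((n : ℝ) + 1) * α n) ^ 2 := by
        intro N; simp
      have hB : ∀ N, ∑ n ∈ range (N + 1), β n * rK K ^ (n + 1) ≤ k * ((1 + 1 / K) / 2) := by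
        intro N
        have h1 := bound hrK hl hμ hq hq1 hrq hlμ hcq hmaj1 hric N
        have h2 : (∑ n ∈ range (N + 1), β n * rK K ^ (n + 1)) ^ 2 ≤
            (k * ((1 + 1 / K) / 2)) ^ 2 := by
          refine h1.trans ?_
          rw [mul_pow]
          gcongr
        exact le_of_sq_le_sq h2 (by positivity)
      have hA : ∀ N, ∑ n ∈ range (N + 1), α n * rK K ^ (n + 1) ≤ (1 + 1 / K) / 2 := by
        intro N
        have h1 := bound hrK hl hμ hq hq1 hrq hlμ hcq hmaj2 hric N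
        have h2 : (∑ n ∈ range (N + 1), α n * rK K ^ (n + 1)) ^ 2 ≤
            ((1 + 1 / K) / 2) ^ 2 := by
          refine h1.trans ?_
          rw [one_pow, one_mul]
          exact hP
        exact le_of_sq_le_sq h2 (by positivity)
      have hAB : ∀ N, ∑ n ∈ range (N + 1), (‖a (n + 1)‖ + ‖b (n + 1)‖) * rK K ^ (n + 1) ≤ M := by
        intro N
        have e1 : ∑ n ∈ range (N + 1), (‖a (n + 1)‖ + ‖b (n + 1)‖) * rK K ^ (n + 1) =
            M * (∑ n ∈ range (N + 1), α n * rK K ^ (n + 1) +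
              ∑ n ∈ range (N + 1), β n * rK K ^ (n + 1)) := by
          rw [← Finset.sum_add_distrib, Finset.mul_sum]
          refine Finset.sum_congr rfl fun n _ => ?_
          rw [hα, hβ]
          field_simp
        rw [e1]
        have h1 := hA N
        have h2 := hB N
        have h3 : (1 + 1 / K) / 2 + k * ((1 + 1 / K) / 2) = 1 := by
          rw [hk]
          have : K + 1 ≠ 0 := by linarith
          field_simp
          ring
        have h4 : ∑ n ∈ range (N + 1), α n * rK K ^ (n + 1) +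
              ∑ n ∈ range (N + 1), β n * rK K ^ (n + 1) ≤ 1 := by linarith
        calc M * _ ≤ M * 1 := by gcongr
          _ = M := mul_one M
      intro N
      refine le_trans ?_ (hAB N)
      apply Finset.sum_le_sum_of_subset_of_nonneg (Finset.range_mono (Nat.le_succ N))
      intro i _ _
      positivity
  have key2 : ∀ N, ∑ n ∈ range N, (‖a (n + 1)‖ + ‖b (n + 1)‖) * r ^ (n + 1) ≤ M := by
    intro N
    refine le_trans (Finset.sum_le_sum fun n _ => ?_) (key N)
    gcongr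
  exact ⟨summable_of_sum_range_le (fun n => by positivity) key2,
    Real.tsum_le_of_sum_range_le (fun n => by positivity) key2⟩

/-- Sharpness. -/
lemma negative {K : ℝ} (hK : 1 < K) {r : ℝ} (hr : rK K < r) :
    ∃ (a b : ℕ → ℂ) (h g : ℂ → ℂ), InF K a b h g ∧ ¬ BohrInequality a b h r := by
  have hr0 := rK_pos hK
  have hr2 := rK_sq hK
  set κ := 1 / K with hκ
  have hκ0 : 0 < κ := by positivity
  have hκ1 : κ < 1 := by rw [hκ, div_lt_one (by linarith)]; exact hK
  set ρ := rK K with hρ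
  set A := (3 + κ) / (8 * ρ) with hA
  have hA0 : 0 < A := by positivity
  have hA1 : A < 1 := by
    rw [hA, div_lt_one (by positivity)]
    apply lt_of_pow_lt_pow_left₀ 2 (by positivity)
    nlinarith
  have hAρ : A * ρ = (3 + κ) / 8 := by rw [hA]; field_simp
  have hAρ1 : A * ρ < 1 := by rw [hAρ]; linarith
  set k := (K - 1) / (K + 1) with hk
  have hk0 : 0 ≤ k := by rw [hk]; apply div_nonneg <;> linarith
  set s : ℕ → ℝ := fun n => if n = 0 then -A else (1 - A ^ 2) * A ^ (n - 1) with hs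
  set a : ℕ → ℂ := fun n => ((s (n - 1) : ℝ) : ℂ) with ha
  set h : ℂ → ℂ := fun z => z * (z - A) / (1 - A * z) with hh
  have hden : ∀ z : ℂ, ‖z‖ < 1 → (1 : ℂ) - A * z ≠ 0 := by
    intro z hz h0
    have h1 : (A : ℂ) * z = 1 := by linear_combination -h0
    have h2 : ‖(A : ℂ) * z‖ = 1 := by rw [h1]; simp
    rw [norm_mul, Complex.norm_real, Real.norm_of_nonneg hA0.le] at h2
    nlinarith [norm_nonneg z]
  have hsum : ∀ z : ℂ, ‖z‖ < 1 → HasSum (fun n : ℕ => a (n + 1) * z ^ (n + 1)) (h z) := by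
    intro z hz
    have hg : ‖(A : ℂ) * z‖ < 1 := by
      rw [norm_mul, Complex.norm_real, Real.norm_of_nonneg hA0.le]
      nlinarith [norm_nonneg z]
    have h1 := (hasSum_geometric_of_norm_lt_one hg).mul_left ((1 - (A : ℂ) ^ 2) * z ^ 2)
    have h2 := (hasSum_nat_add_iff (f := fun n : ℕ => a (n + 1) * z ^ (n + 1))
      (g := (1 - (A : ℂ) ^ 2) * z ^ 2 * (1 - A * z)⁻¹) 1).1 (by
        refine h1.congr_fun fun n => ?_
        simp only [ha, hs, Nat.add_sub_cancel, Nat.add_eq_zero_iff, one_ne_zero, and_false,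
          if_false]
        push_cast
        rw [mul_pow]
        ring)
    have e : (1 - (A : ℂ) ^ 2) * z ^ 2 * (1 - A * z)⁻¹ +
        ∑ i ∈ range 1, a (i + 1) * z ^ (i + 1) = h z := by
      simp only [Finset.sum_range_one, ha, hs, hh]
      have := hden z hz
      push_cast
      simp only [zero_add, Nat.sub_self, if_true, pow_one]
      push_cast
      field_simp
      ring
    rw [e] at h2
    exact h2
  have hb1 : ∀ z : ℂ, ‖z‖ < 1 → ‖h z‖ ≤ 1 := by
    intro z hz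
    rw [hh]
    simp only [norm_div, norm_mul]
    rw [div_le_one (norm_pos_iff.2 (hden z hz))]
    have h1 : ‖z - A‖ ≤ ‖1 - A * z‖ := by
      rw [← sq_le_sq₀ (norm_nonneg _) (norm_nonneg _)]
      have e1 : ‖(1 : ℂ) - A * z‖ ^ 2 - ‖z - A‖ ^ 2 = (1 - A ^ 2) * (1 - ‖z‖ ^ 2) := by
        simp only [← Complex.normSq_eq_norm_sq, Complex.normSq_apply, Complex.sub_re,
          Complex.sub_im, Complex.mul_re, Complex.mul_im, Complex.ofReal_re, Complex.ofReal_im,
          Complex.one_re, Complex.one_im]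
        ring
      have h2 : 0 ≤ (1 - A ^ 2) * (1 - ‖z‖ ^ 2) := by
        apply mul_nonneg <;> nlinarith [norm_nonneg z]
      linarith
    calc ‖z‖ * ‖z - A‖ ≤ 1 * ‖1 - A * z‖ := by gcongr
      _ = _ := one_mul _
  refine ⟨a, fun n => (k : ℂ) * a n, h, fun z => (k : ℂ) * h z, ⟨hsum, ?_, ⟨1, hb1⟩, ?_⟩, ?_⟩
  · intro z hz
    refine ((hsum z hz).mul_left (k : ℂ)).congr_fun fun n => ?_
    ring
  · intro z _
    rw [deriv_const_mul_field, norm_mul, Complex.norm_real, Real.norm_of_nonneg hk0]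
  · rintro ⟨hsm, hle⟩
    have hsup : supNorm h ≤ 1 := by
      apply csSup_le
      · exact ⟨_, ⟨0, by simp, rfl⟩⟩
      · rintro _ ⟨w, hw, rfl⟩
        exact hb1 w (by simpa using hw)
    have hn : ∀ n : ℕ, ‖a (n + 1)‖ + ‖(k : ℂ) * a (n + 1)‖ = (1 + k) * |s n| := by
      intro n
      have hkn : ‖(k : ℂ)‖ = k := by rw [Complex.norm_real, Real.norm_of_nonneg hk0]
      rw [norm_mul, hkn, ha]
      simp only [Nat.add_sub_cancel, Complex.norm_real, Real.norm_eq_abs]
      ring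
    simp only [hn] at hsm hle
    have hs0 : |s 0| = A := by simp [hs, abs_of_pos hA0]
    have hs1 : ∀ n : ℕ, |s (n + 1)| = (1 - A ^ 2) * A ^ n := by
      intro n
      simp only [hs, Nat.add_eq_zero_iff, one_ne_zero, and_false, if_false, Nat.add_sub_cancel]
      apply abs_of_nonneg
      have : 0 ≤ 1 - A ^ 2 := by nlinarith
      positivity
    have hexact : HasSum (fun n : ℕ => (1 + k) * |s n| * ρ ^ (n + 1)) 1 := by
      have h1 := (hasSum_geometric_of_lt_one (r := A * ρ) (by positivity) hAρ1).mul_left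
        ((1 + k) * (1 - A ^ 2) * ρ ^ 2)
      have h2 := (hasSum_nat_add_iff (f := fun n : ℕ => (1 + k) * |s n| * ρ ^ (n + 1))
        (g := (1 + k) * (1 - A ^ 2) * ρ ^ 2 * (1 - A * ρ)⁻¹) 1).1 (by
          refine h1.congr_fun fun n => ?_
          simp only [hs1]
          rw [mul_pow]; ring)
      have e : (1 + k) * (1 - A ^ 2) * ρ ^ 2 * (1 - A * ρ)⁻¹ +
          ∑ i ∈ range 1, (1 + k) * |s i| * ρ ^ (i + 1) = 1 := by
        simp only [Finset.sum_range_one, hs0, zero_add, pow_one]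
        have h3 : (1 - A ^ 2) * ρ ^ 2 = ρ ^ 2 - ((3 + κ) / 8) ^ 2 := by rw [← hAρ]; ring
        have h4 : ρ ^ 2 = (7 + 10 * κ - κ ^ 2) / 32 := by linarith
        have h5 : (1 + k) * ((1 + κ) / 2) = 1 := by
          rw [hk, hκ]
          have : K + 1 ≠ 0 := by linarith
          field_simp
          ring
        have h6 : (1 - A ^ 2) * ρ ^ 2 * (1 - A * ρ)⁻¹ + A * ρ = (1 + κ) / 2 := by
          rw [h3, h4, hAρ]
          have : (1 : ℝ) - (3 + κ) / 8 ≠ 0 := by
            apply ne_of_gt; linarith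
          have h7 : (5 : ℝ) - κ ≠ 0 := by
            apply ne_of_gt; linarith
          have h8 : (1 : ℝ) - (3 + κ) / 8 = (5 - κ) / 8 := by ring
          rw [h8]
          field_simp
          ring
        calc (1 + k) * (1 - A ^ 2) * ρ ^ 2 * (1 - A * ρ)⁻¹ + (1 + k) * A * ρ
            = (1 + k) * ((1 - A ^ 2) * ρ ^ 2 * (1 - A * ρ)⁻¹ + A * ρ) := by ring
          _ = 1 := by rw [h6, h5]
      rw [e] at h2
      exact h2
    have hlt : ∑' n : ℕ, (1 + k) * |s n| * ρ ^ (n + 1) < ∑' n : ℕ, (1 + k) * |s n| * r ^ (n + 1) := by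
      refine hexact.summable.tsum_lt_tsum (i := 0) (fun n => ?_) ?_ hsm
      · have : 0 ≤ (1 + k) * |s n| := by positivity
        gcongr
      · simp only [hs0, zero_add, pow_one]
        have : 0 < (1 + k) * A := by positivity
        gcongr
    rw [hexact.tsum_eq] at hlt
    linarith

/-- **The Bohr radius of `F_K` is `r_K`, for every `K > 1`.** -/
theorem result : ∀ K : ℝ, 1 < K →
    (∀ (a b : ℕ → ℂ) (h g : ℂ → ℂ), InF K a b h g →
      ∀ r : ℝ, 0 ≤ r → r ≤ rK K → BohrInequality a b h r) ∧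
    (∀ r : ℝ, rK K < r →
      ∃ (a b : ℕ → ℂ) (h g : ℂ → ℂ), InF K a b h g ∧ ¬ BohrInequality a b h r) :=
  fun _ hK => ⟨fun _ _ _ _ hF _ h0 hr => positive hK hF h0 hr, fun _ hr => negative hK hr⟩

end Pool.Agent.Results.MP_8fe0b8_an.BohrRadiusHarmonic
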